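import Pool.Agent.Helper75.SH.HTT
import Pool.Agent.Helper20.SH.NFT2

/-!
# Project RC, SHARP, cell engine, head/tail reduction: the natural and the shift form on the tail

`NF_tailS`: `NF` on the families of the tail is at least minus the means of the pointwise form of `TSS` (terms with
`kap`, `th`) minus `3/2 (9/20)^M0` times the mass.
-/

set_option autoImplicit false

open MeasureTheory Set Filter Topology

namespace Pool.Agent.Helper2.SH

open Helper49.LT hiding sg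
open Helper49.RC (om)
open Helper95.RC
open Helper49.Sharp
open Helper95.SH
open Pool.Agent.Helper75.SH
open Pool.Agent.Helper20.RC (wR)
open Pool.Agent.Helper20.SH (NS_tail)
open Pool.Agent.Helper99.RC (ps NF_closed)

/-- the sum over the window of a reflected real function -/
theorem sum_reflR (M : ℕ) (f : ℤ → ℝ) :
    ∑ n ∈ Finset.Icc (-(M : ℤ)) M, f (-n) = ∑ n ∈ Finset.Icc (-(M : ℤ)) M, f n := by
  refine Finset.sum_nbij' (fun n => -n) (fun n => -n) ?_ ?_ ?_ ?_ ?_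
  · intro n hn; rw [Finset.mem_Icc] at hn ⊢; omega
  · intro n hn; rw [Finset.mem_Icc] at hn ⊢; omega
  · intro n _; ring
  · intro n _; ring
  · intro n _; rfl

/-- a symmetric function has at most half of its mass on the negative integers -/
theorem half_neg (M : ℕ) (f : ℤ → ℝ) (h0 : ∀ n, 0 ≤ f n) (hs : ∀ n, f (-n) = f n) :
    2 * ∑ n ∈ Finset.Icc (-(M : ℤ)) M, (if n < 0 then f n else 0) ≤ ∑ n ∈ Finset.Icc (-(M : ℤ)) M, f n := by
  have h1 := sum_reflR M (fun n => if n < 0 then f n else 0)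
  beta_reduce at h1
  rw [two_mul]
  nth_rewrite 1 [← h1]
  rw [← Finset.sum_add_distrib]
  refine Finset.sum_le_sum fun n _ => ?_
  rw [hs]
  by_cases a : n < 0
  · rw [if_pos a, if_neg (by omega)]
    linarith
  · rw [if_neg a]
    split_ifs
    · linarith
    · simpa using h0 n

/-- the shifted sum over the negative half -/
theorem shift_neg (N : ℕ) (W : ℤ → ℝ) (h0 : ∀ n, 0 ≤ W n) :
    ∑ m ∈ (Finset.Icc (-((N + 3 : ℕ) : ℤ)) ((N + 3 : ℕ) : ℤ)).filter (fun m => m < 0), W (m - 1) ≤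
      ∑ n ∈ Finset.Icc (-((N + 4 : ℕ) : ℤ)) ((N + 4 : ℕ) : ℤ), (if n < 0 then W n else 0) := by
  rw [← Finset.sum_filter]
  have e : ∑ m ∈ (Finset.Icc (-((N + 3 : ℕ) : ℤ)) ((N + 3 : ℕ) : ℤ)).filter (fun m => m < 0), W (m - 1) =
      ∑ n ∈ ((Finset.Icc (-((N + 3 : ℕ) : ℤ)) ((N + 3 : ℕ) : ℤ)).filter (fun m => m < 0)).image (fun m => m - 1),
        W n := by
    rw [Finset.sum_image]
    intro a _ b _ h
    have : a - 1 = b - 1 := h
    omega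
  rw [e]
  refine Finset.sum_le_sum_of_subset_of_nonneg ?_ fun n _ _ => h0 n
  intro n hn
  rw [Finset.mem_image] at hn
  obtain ⟨m, hm, rfl⟩ := hn
  rw [Finset.mem_filter, Finset.mem_Icc] at hm ⊢
  push_cast at hm ⊢
  omega

/-- the shifted sum over both halves -/
theorem shift_all (N : ℕ) (W : ℤ → ℝ) (h0 : ∀ n, 0 ≤ W n) :
    ∑ m ∈ (Finset.Icc (-((N + 3 : ℕ) : ℤ)) ((N + 3 : ℕ) : ℤ)).filter (fun m => 0 < m), W (m - 1)
      + ∑ m ∈ (Finset.Icc (-((N + 3 : ℕ) : ℤ)) ((N + 3 : ℕ) : ℤ)).filter (fun m => m < 0), W (m - 1) ≤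
      ∑ n ∈ Finset.Icc (-((N + 4 : ℕ) : ℤ)) ((N + 4 : ℕ) : ℤ), W n := by
  have hd : Disjoint ((Finset.Icc (-((N + 3 : ℕ) : ℤ)) ((N + 3 : ℕ) : ℤ)).filter (fun m => 0 < m))
      ((Finset.Icc (-((N + 3 : ℕ) : ℤ)) ((N + 3 : ℕ) : ℤ)).filter (fun m => m < 0)) := by
    rw [Finset.disjoint_left]
    intro n h1 h2
    have := (Finset.mem_filter.1 h1).2
    have := (Finset.mem_filter.1 h2).2
    omega
  rw [← Finset.sum_union hd]
  set U := (Finset.Icc (-((N + 3 : ℕ) : ℤ)) ((N + 3 : ℕ) : ℤ)).filter (fun m => 0 < m) ∪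
      (Finset.Icc (-((N + 3 : ℕ) : ℤ)) ((N + 3 : ℕ) : ℤ)).filter (fun m => m < 0) with hU
  have e : ∑ m ∈ U, W (m - 1) = ∑ n ∈ U.image (fun m => m - 1), W n := by
    rw [Finset.sum_image]
    intro a _ b _ h
    have : a - 1 = b - 1 := h
    omega
  rw [e]
  refine Finset.sum_le_sum_of_subset_of_nonneg ?_ fun n _ _ => h0 n
  intro n hn
  rw [Finset.mem_image] at hn
  obtain ⟨m, hm, rfl⟩ := hn
  rw [hU, Finset.mem_union, Finset.mem_filter, Finset.mem_filter, Finset.mem_Icc] at hm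
  rw [Finset.mem_Icc]
  push_cast at hm ⊢
  omega

/-- the even part of the pair of edges -/
theorem pair_even (P R : ℂ) : ‖(starRingEnd ℂ) om * P + kq 2 * R‖ ^ 2 +
    ‖(starRingEnd ℂ) om ^ 2 * P + (starRingEnd ℂ) (kq 2) * R‖ ^ 2 ≤ 21 / 4 * ‖P‖ ^ 2 + 75 / 8 * ‖R‖ ^ 2 := by
  set s : ℝ := Real.sqrt 3 with hs
  have s2 : s ^ 2 = 3 := Real.sq_sqrt (by norm_num)
  have o1 : ((starRingEnd ℂ) om).re = 1 / 2 := by
    rw [om_conj]; simp
  have o2 : ((starRingEnd ℂ) om).im = -(s / 2) := by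
    rw [om_conj]; simp [hs]
  have q1 : ((starRingEnd ℂ) om ^ 2).re = -(1 / 2) := by
    rw [sq, Complex.mul_re, o1, o2]
    nlinarith
  have q2 : ((starRingEnd ℂ) om ^ 2).im = -(s / 2) := by
    rw [sq, Complex.mul_im, o1, o2]
    ring
  have k1 : (kq 2).re = s := by
    unfold kq
    simp [hs]
    ring
  have k2 : (kq 2).im = 1 / 4 := by
    unfold kq
    simp
    norm_num
  have k3 : ((starRingEnd ℂ) (kq 2)).re = s := by rw [Complex.conj_re, k1]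
  have k4 : ((starRingEnd ℂ) (kq 2)).im = -(1 / 4) := by rw [Complex.conj_im, k2]
  simp only [← Complex.normSq_eq_norm_sq, Complex.normSq_apply, Complex.add_re, Complex.add_im, Complex.mul_re,
    Complex.mul_im, q1, q2, o1, o2, k1, k2, k3, k4]
  generalize P.re = a
  generalize P.im = b
  generalize R.re = c
  generalize R.im = d
  have e : (1 / 2 * a - -(s / 2) * b + (s * c - 1 / 4 * d)) * (1 / 2 * a - -(s / 2) * b + (s * c - 1 / 4 * d)) +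
      (1 / 2 * b + -(s / 2) * a + (s * d + 1 / 4 * c)) * (1 / 2 * b + -(s / 2) * a + (s * d + 1 / 4 * c)) +
      ((-(1 / 2) * a - -(s / 2) * b + (s * c - -(1 / 4) * d)) * (-(1 / 2) * a - -(s / 2) * b + (s * c - -(1 / 4) * d)) +
      (-(1 / 2) * b + -(s / 2) * a + (s * d + -(1 / 4) * c)) * (-(1 / 2) * b + -(s / 2) * a + (s * d + -(1 / 4) * c)))
      = 2 * s ^ 2 * ((b / 2 + c) ^ 2 + (d - a / 2) ^ 2) + 2 * (a / 2 - d / 4) ^ 2 + 2 * (b / 2 + c / 4) ^ 2 := by ring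
  rw [e, s2]
  nlinarith [sq_nonneg (b - c), sq_nonneg (a + d)]

section

variable {P : Par} {N : ℕ} {p r s : ℤ → ℂ}

theorem wm_even {η : ℂ} {u : ℤ → ℂ} (h : ∀ n, ¬ Even n → u n = 0) {n : ℤ} (hn : ¬ Even n) : wm η u n = 0 := by
  unfold wm
  rw [h n hn, h (n - 2) (by rw [Int.even_iff] at hn ⊢; omega), h (n + 2) (by rw [Int.even_iff] at hn ⊢; omega)]
  ring

theorem wm_odd {η : ℂ} {u : ℤ → ℂ} (h : ∀ n, Even n → u n = 0) {n : ℤ} (hn : Even n) : wm η u n = 0 := by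
  unfold wm
  rw [h n hn, h (n - 2) (by rw [Int.even_iff] at hn ⊢; omega), h (n + 2) (by rw [Int.even_iff] at hn ⊢; omega)]
  ring

/-- the pair of edges at one frequency -/
theorem pair_row (ep : ∀ n, ¬ Even n → p n = 0) (er : ∀ n, ¬ Even n → r n = 0) (es : ∀ n, Even n → s n = 0)
    (m : ℤ) : ‖C1L P p r s m‖ ^ 2 + ‖C2L P p r s m‖ ^ 2 ≤ 2 * ‖wm P.eta s (m - 1)‖ ^ 2
      + 21 / 4 * ‖wm P.eta p (m - 1)‖ ^ 2 + 75 / 8 * ‖wm P.eta r (m - 1)‖ ^ 2 := by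
  rw [C1L_eq, C2L_eq, norm_mul, norm_mul, norm_ee, norm_ee, one_mul, one_mul]
  unfold G1L G2L
  by_cases h : Even (m - 1)
  · rw [wm_odd es h, add_zero, sub_zero, norm_zero]
    have := pair_even (wm P.eta p (m - 1)) (wm P.eta r (m - 1))
    linarith
  · rw [wm_even ep h, wm_even er h, mul_zero, mul_zero, mul_zero, mul_zero, zero_add, zero_add, zero_sub, norm_neg,
      norm_zero]
    linarith

/-- the weighted pair of edges at one frequency -/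
theorem pair_w {K L : ℕ} (hK : 3 ≤ K) (hL : 3 ≤ L) (ep : ∀ n, ¬ Even n → p n = 0) (er : ∀ n, ¬ Even n → r n = 0)
    (es : ∀ n, Even n → s n = 0) (oK : Odd K) (eL : Even L) (zp : ∀ n : ℤ, |n| ≤ L → p n = 0)
    (zr : ∀ n : ℤ, |n| ≤ L → r n = 0) (zs : ∀ n : ℤ, |n| ≤ K → s n = 0) (m : ℤ) (hm : m ≠ 0) :
    (‖C1L P p r s m‖ ^ 2 + ‖C2L P p r s m‖ ^ 2) / |(m : ℝ)| ≤ 2 / ((K : ℝ) - 1) * ‖wm P.eta s (m - 1)‖ ^ 2
      + 1 / ((L : ℝ) - 1) * (21 / 4 * ‖wm P.eta p (m - 1)‖ ^ 2 + 75 / 8 * ‖wm P.eta r (m - 1)‖ ^ 2) := by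
  have hmR : (0 : ℝ) < |(m : ℝ)| := abs_pos.2 (by exact_mod_cast hm)
  have hK1 : (0 : ℝ) < (K : ℝ) - 1 := by
    have : (3 : ℝ) ≤ K := by exact_mod_cast hK
    linarith
  have hL1 : (0 : ℝ) < (L : ℝ) - 1 := by
    have : (3 : ℝ) ≤ L := by exact_mod_cast hL
    linarith
  have key : ∀ (u : ℤ → ℂ) (M : ℕ), (0 : ℝ) < (M : ℝ) - 1 → (∀ n : ℤ, |n| ≤ M → u n = 0) →
      (∀ n : ℤ, n % 2 ≠ (M : ℤ) % 2 → u n = 0) →
      ‖wm P.eta u (m - 1)‖ ^ 2 / |(m : ℝ)| ≤ 1 / ((M : ℝ) - 1) * ‖wm P.eta u (m - 1)‖ ^ 2 := by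
    intro u M hM h1 h2
    by_cases h : (M : ℤ) - 1 ≤ |m|
    · have h' : (M : ℝ) - 1 ≤ |(m : ℝ)| := by
        have : (((M : ℤ) - 1 : ℤ) : ℝ) ≤ ((|m| : ℤ) : ℝ) := by exact_mod_cast h
        rwa [Int.cast_abs, Int.cast_sub, Int.cast_natCast, Int.cast_one] at this
      rw [div_eq_mul_one_div, mul_comm]
      exact mul_le_mul_of_nonneg_right (one_div_le_one_div_of_le hM h') (sq_nonneg _)
    · have hz : wm P.eta u (m - 1) = 0 := by
        unfold wm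
        have hv : ∀ n : ℤ, |n - (m - 1)| ≤ 2 → n % 2 = (m - 1) % 2 → u n = 0 := by
          intro n hn hp
          by_cases h3 : n % 2 = (M : ℤ) % 2
          · apply h1
            rw [not_le, abs_lt] at h
            rw [abs_le] at hn ⊢
            omega
          · exact h2 n h3
        rw [hv (m - 1) (by simp) rfl, hv (m - 1 - 2) (by simp) (by omega), hv (m - 1 + 2) (by simp) (by omega)]
        ring
      rw [hz, norm_zero]
      simp
  have k1 := key s K hK1 zs (fun n hn => es n (by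
    rw [Int.even_iff]
    obtain ⟨j, hj⟩ := oK
    omega))
  have k2 := key p L hL1 zp (fun n hn => ep n (by
    rw [Int.even_iff]
    obtain ⟨j, hj⟩ := eL
    omega))
  have k3 := key r L hL1 zr (fun n hn => er n (by
    rw [Int.even_iff]
    obtain ⟨j, hj⟩ := eL
    omega))
  have h := div_le_div_of_nonneg_right (pair_row (P := P) ep er es m) hmR.le
  refine h.trans ?_
  rw [add_div, add_div, mul_div_assoc, mul_div_assoc, mul_div_assoc]
  have e : 2 / ((K : ℝ) - 1) * ‖wm P.eta s (m - 1)‖ ^ 2 = 2 * (1 / ((K : ℝ) - 1) * ‖wm P.eta s (m - 1)‖ ^ 2) := by ring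
  rw [e]
  linarith

end

/-! ### the real and the imaginary part of the tail of `z` -/

/-- the hermitian arrays of the real and of the imaginary part -/
noncomputable def xs (s : ℤ → ℂ) (n : ℤ) : ℂ := (s n + (starRingEnd ℂ) (s (-n))) / 2
noncomputable def ys (s : ℤ → ℂ) (n : ℤ) : ℂ := (s n - (starRingEnd ℂ) (s (-n))) / (2 * Complex.I)

theorem xs_herm (s : ℤ → ℂ) (n : ℤ) : xs s (-n) = (starRingEnd ℂ) (xs s n) := by
  unfold xs
  rw [map_div₀, map_add, Complex.conj_conj, Complex.conj_ofNat, neg_neg]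
  ring

theorem ys_herm (s : ℤ → ℂ) (n : ℤ) : ys s (-n) = (starRingEnd ℂ) (ys s n) := by
  unfold ys
  rw [map_div₀, map_sub, map_mul, Complex.conj_conj, Complex.conj_ofNat, Complex.conj_I, neg_neg]
  have hI := Complex.I_ne_zero
  field_simp
  ring

theorem xs_ys (s : ℤ → ℂ) (n : ℤ) : s n = xs s n + Complex.I * ys s n := by
  unfold xs ys
  have hI := Complex.I_ne_zero
  field_simp
  ring

theorem xs_sup {N : ℕ} {s : ℤ → ℂ} (h : Sup N s) : Sup N (xs s) := by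
  intro n hn
  unfold xs
  rw [h n hn, h (-n) (by rw [Finset.mem_Icc] at hn ⊢; omega)]
  simp

theorem ys_sup {N : ℕ} {s : ℤ → ℂ} (h : Sup N s) : Sup N (ys s) := by
  intro n hn
  unfold ys
  rw [h n hn, h (-n) (by rw [Finset.mem_Icc] at hn ⊢; omega)]
  simp

theorem conj_tpM (N : ℕ) (s : ℤ → ℂ) (x : ℝ) :
    (starRingEnd ℂ) (tpM N s x) = tpM N (fun n => (starRingEnd ℂ) (s (-n))) x := by
  rw [tpM_def, tpM_def, map_sum, ← sum_refl]
  refine Finset.sum_congr rfl fun n _ => ?_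
  rw [map_mul, ← ee_neg]
  congr 2
  push_cast
  ring

theorem tp_xs (N : ℕ) (s : ℤ → ℂ) (x : ℝ) : tpM N (xs s) x = ((tpM N s x).re : ℂ) := by
  have h : tpM N (xs s) x = (1 / 2) * (tpM N s x + (starRingEnd ℂ) (tpM N s x)) := by
    rw [conj_tpM, ← tpM_add, ← tpM_mul]
    congr 1
    funext n
    unfold xs
    ring
  rw [h, Complex.add_conj]
  push_cast
  ring

theorem tp_ys (N : ℕ) (s : ℤ → ℂ) (x : ℝ) : tpM N (ys s) x = ((tpM N s x).im : ℂ) := by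
  have h : tpM N (ys s) x = (1 / (2 * Complex.I)) * (tpM N s x - (starRingEnd ℂ) (tpM N s x)) := by
    rw [conj_tpM, ← tpM_sub, ← tpM_mul]
    congr 1
    funext n
    unfold ys
    ring
  have hI := Complex.I_ne_zero
  rw [h, Complex.sub_conj]
  push_cast
  field_simp

theorem wm_xys (η : ℂ) (s : ℤ → ℂ) (n : ℤ) : wm η s n = wm η (xs s) n + Complex.I * wm η (ys s) n := by
  unfold wm
  rw [xs_ys s n, xs_ys s (n - 2), xs_ys s (n + 2)]
  ring

/-- Young -/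
theorem young2 {th : ℝ} (hth : 0 < th) (a b : ℂ) :
    ‖a + Complex.I * b‖ ^ 2 ≤ (1 + th) * ‖a‖ ^ 2 + (1 + 1 / th) * ‖b‖ ^ 2 := by
  have h1 : ‖a + Complex.I * b‖ ≤ ‖a‖ + ‖b‖ := by
    refine (norm_add_le _ _).trans (le_of_eq ?_)
    rw [norm_mul, Complex.norm_I, one_mul]
  have h2 : ‖a + Complex.I * b‖ ^ 2 ≤ (‖a‖ + ‖b‖) ^ 2 := pow_le_pow_left₀ (norm_nonneg _) h1 2
  refine h2.trans ?_
  have h3 : 0 ≤ (th * ‖a‖ - ‖b‖) ^ 2 / th := by positivity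
  have h4 : (th * ‖a‖ - ‖b‖) ^ 2 / th = th * ‖a‖ ^ 2 - 2 * ‖a‖ * ‖b‖ + 1 / th * ‖b‖ ^ 2 := by
    field_simp
    ring
  rw [h4] at h3
  nlinarith

/-- Parseval with the weight -/
theorem par_wm (P : Par) {N : ℕ} {u : ℤ → ℂ} (hu : Sup N u) {M : ℕ} (hM : N + 2 ≤ M) :
    ∑ n ∈ Finset.Icc (-(M : ℤ)) M, ‖wm P.eta u n‖ ^ 2 = mean fun x => P.w x ^ 2 * ‖tpM N u x‖ ^ 2 := by
  rw [win_eq hM fun n hn => by rw [wm_sup hu n hn, norm_zero]; ring, par_tp]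
  refine mean_congr fun x => ?_
  rw [tpM_wm P.eta hu, norm_mul, Complex.norm_real, mul_pow, Real.norm_eq_abs, sq_abs]
  rfl


/-- the negative half of the tail of `z` -/
theorem neg_s (η : ℂ) {th : ℝ} (hth : 0 < th) (s : ℤ → ℂ) (M : ℕ) :
    2 * ∑ n ∈ Finset.Icc (-(M : ℤ)) M, (if n < 0 then ‖wm η s n‖ ^ 2 else 0) ≤
      (1 + th) * ∑ n ∈ Finset.Icc (-(M : ℤ)) M, ‖wm η (xs s) n‖ ^ 2
      + (1 + 1 / th) * ∑ n ∈ Finset.Icc (-(M : ℤ)) M, ‖wm η (ys s) n‖ ^ 2 := by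
  have h1 := half_neg M (fun n => ‖wm η (xs s) n‖ ^ 2) (fun n => sq_nonneg _)
    (fun n => by rw [wm_herm (xs_herm s), Complex.norm_conj])
  have h2 := half_neg M (fun n => ‖wm η (ys s) n‖ ^ 2) (fun n => sq_nonneg _)
    (fun n => by rw [wm_herm (ys_herm s), Complex.norm_conj])
  beta_reduce at h1 h2
  have h3 : ∑ n ∈ Finset.Icc (-(M : ℤ)) M, (if n < 0 then ‖wm η s n‖ ^ 2 else 0) ≤
      (1 + th) * ∑ n ∈ Finset.Icc (-(M : ℤ)) M, (if n < 0 then ‖wm η (xs s) n‖ ^ 2 else 0)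
      + (1 + 1 / th) * ∑ n ∈ Finset.Icc (-(M : ℤ)) M, (if n < 0 then ‖wm η (ys s) n‖ ^ 2 else 0) := by
    rw [Finset.mul_sum, Finset.mul_sum, ← Finset.sum_add_distrib]
    refine Finset.sum_le_sum fun n _ => ?_
    split_ifs
    · rw [wm_xys]
      exact young2 hth _ _
    · simp
  have a1 : 0 ≤ 1 + th := by linarith
  have a2 : 0 ≤ 1 + 1 / th := by positivity
  have h4 := mul_le_mul_of_nonneg_left h1 a1
  have h5 := mul_le_mul_of_nonneg_left h2 a2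
  linarith

/-- `wm` of an array with the parity of `M` which vanishes for `|n| ≤ M` -/
theorem wm_zero_par {η : ℂ} {u : ℤ → ℂ} {M : ℕ} (h1 : ∀ n : ℤ, |n| ≤ M → u n = 0)
    (h2 : ∀ n : ℤ, n % 2 ≠ (M : ℤ) % 2 → u n = 0) {n : ℤ} (hn : |n| + 1 ≤ M) : wm η u n = 0 := by
  have hv : ∀ m : ℤ, |m - n| ≤ 2 → m % 2 = n % 2 → u m = 0 := by
    intro m hm hp
    by_cases h3 : m % 2 = (M : ℤ) % 2
    · apply h1
      have a := abs_le.1 hm
      have b := abs_le.1 (show |n| ≤ M - 1 by omega)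
      rw [abs_le]
      omega
    · exact h2 m h3
  unfold wm
  rw [hv n (by simp) rfl, hv (n - 2) (by simp) (by omega), hv (n + 2) (by simp) (by omega)]
  ring

/-- **THE NATURAL AND THE SHIFT FORM ON THE TAIL** -/
theorem NF_tailS {P : Par} {d k ph del kap th : ℝ} {K L N M0 : ℕ} {p r s : ℤ → ℂ}
    (hps : P.ps = ps d k ph) (hd : 0 < del) (hdk : del ^ 2 ≤ 1 - 9 / 4 * k ^ 2) (hk : |k| ≤ 2 / 5)
    (hkap : del⁻¹ ≤ kap) (hth : 0 < th) (hM : 12 ≤ M0) (hMK : M0 + 2 ≤ K) (hML : M0 + 1 ≤ L)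
    (oK : Odd K) (eL : Even L) (sp : Sup N p) (sr : Sup N r) (ss : Sup N s)
    (hp : ∀ n, p (-n) = (starRingEnd ℂ) (p n)) (hr : ∀ n, r (-n) = (starRingEnd ℂ) (r n))
    (ep : ∀ n, ¬ Even n → p n = 0) (er : ∀ n, ¬ Even n → r n = 0) (es : ∀ n, Even n → s n = 0)
    (zp : ∀ n : ℤ, |n| ≤ L → p n = 0) (zr : ∀ n : ℤ, |n| ≤ L → r n = 0) (zs : ∀ n : ℤ, |n| ≤ K → s n = 0) :
    -(1 / ((K : ℝ) - 1) * (2 * (kap - 1) * mean (fun x => P.w x ^ 2 * ‖tpM N s x‖ ^ 2)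
        + 2 * (1 + th) * mean (fun x => P.w x ^ 2 * (tpM N s x).re ^ 2)
        + 2 * (1 + 1 / th) * mean (fun x => P.w x ^ 2 * (tpM N s x).im ^ 2)))
      - kap / ((L : ℝ) - 1) * (21 / 4 * mean (fun x => P.w x ^ 2 * (tpM N p x).re ^ 2)
        + 75 / 8 * mean (fun x => P.w x ^ 2 * (tpM N r x).re ^ 2))
      - 3 / 2 * (9 / 20) ^ M0 * ∑ m ∈ Finset.Icc (-((N + 3 : ℕ) : ℤ)) ((N + 3 : ℕ) : ℤ),
          (‖C1L P p r s m‖ ^ 2 + ‖C2L P p r s m‖ ^ 2)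
      ≤ NF P.ps (N + 3) (C1L P p r s) (C2L P p r s) := by
  have hK3 : 3 ≤ K := by omega
  have hL3 : 3 ≤ L := by omega
  have hK1 : (0 : ℝ) < (K : ℝ) - 1 := by
    have : (3 : ℝ) ≤ K := by exact_mod_cast hK3
    linarith
  have hL1 : (0 : ℝ) < (L : ℝ) - 1 := by
    have : (3 : ℝ) ≤ L := by exact_mod_cast hL3
    linarith
  have pK : ∀ n : ℤ, n % 2 ≠ (K : ℤ) % 2 → s n = 0 := fun n hn => es n (by
    rw [Int.even_iff]
    obtain ⟨j, hj⟩ := oK
    omega)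
  have pL : ∀ n : ℤ, n % 2 ≠ (L : ℤ) % 2 → ¬ Even n := fun n hn => by
    rw [Int.even_iff]
    obtain ⟨j, hj⟩ := eL
    omega
  -- the families vanish in the middle
  have z0 : ∀ m : ℤ, m.natAbs < M0 → C1L P p r s m = 0 ∧ C2L P p r s m = 0 := by
    intro m hm
    have hm' : |m - 1| + 1 ≤ ((M0 + 1 : ℕ) : ℤ) := by
      have : |m - 1| ≤ M0 := by
        rw [abs_le]
        omega
      push_cast
      omega
    have w1 : wm P.eta s (m - 1) = 0 := wm_zero_par zs pK (by push_cast at hm'; omega)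
    have w2 : wm P.eta p (m - 1) = 0 := wm_zero_par zp (fun n hn => ep n (pL n hn)) (by push_cast at hm'; omega)
    have w3 : wm P.eta r (m - 1) = 0 := wm_zero_par zr (fun n hn => er n (pL n hn)) (by push_cast at hm'; omega)
    rw [C1L_eq, C2L_eq]
    unfold G1L G2L
    rw [w1, w2, w3]
    constructor <;> ring
  set S := Finset.Icc (-((N + 3 : ℕ) : ℤ)) ((N + 3 : ℕ) : ℤ) with hS
  set T : ℤ → ℝ := fun m => ‖C1L P p r s m‖ ^ 2 + ‖C2L P p r s m‖ ^ 2 with hT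
  set W : ℤ → ℝ := fun n => 2 / ((K : ℝ) - 1) * ‖wm P.eta s n‖ ^ 2
      + 1 / ((L : ℝ) - 1) * (21 / 4 * ‖wm P.eta p n‖ ^ 2 + 75 / 8 * ‖wm P.eta r n‖ ^ 2) with hW
  have W0 : ∀ n, 0 ≤ W n := fun n => by
    have a1 : 0 ≤ 2 / ((K : ℝ) - 1) := by positivity
    have a2 : 0 ≤ 1 / ((L : ℝ) - 1) := by positivity
    show 0 ≤ 2 / ((K : ℝ) - 1) * ‖wm P.eta s n‖ ^ 2
      + 1 / ((L : ℝ) - 1) * (21 / 4 * ‖wm P.eta p n‖ ^ 2 + 75 / 8 * ‖wm P.eta r n‖ ^ 2)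
    positivity
  have TW : ∀ m : ℤ, m ≠ 0 → T m / |(m : ℝ)| ≤ W (m - 1) := fun m hm =>
    pair_w hK3 hL3 ep er es oK eL zp zr zs m hm
  have T0 : ∀ m : ℤ, 0 ≤ T m / |(m : ℝ)| := fun m => by
    show 0 ≤ (‖C1L P p r s m‖ ^ 2 + ‖C2L P p r s m‖ ^ 2) / |(m : ℝ)|
    positivity
  have key := NS_tail d k ph del hd hdk hk M0 hM S (C1L P p r s) (C2L P p r s) (fun m hm => (z0 m hm).1)
    (fun m hm => (z0 m hm).2)
  rw [hps, NF_closed]
  refine le_trans ?_ key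
  -- the half lines
  set A := ∑ m ∈ S.filter (fun m => 0 < m), T m / |(m : ℝ)| with hA
  set B := ∑ m ∈ S.filter (fun m => m < 0), T m / |(m : ℝ)| with hB
  have A0 : 0 ≤ A := Finset.sum_nonneg fun m _ => T0 m
  have B0 : 0 ≤ B := Finset.sum_nonneg fun m _ => T0 m
  have AA : A ≤ ∑ m ∈ S.filter (fun m => 0 < m), W (m - 1) := Finset.sum_le_sum fun m hm => TW m (by
    have := (Finset.mem_filter.1 hm).2
    omega)
  have BB : B ≤ ∑ m ∈ S.filter (fun m => m < 0), W (m - 1) := Finset.sum_le_sum fun m hm => TW m (by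
    have := (Finset.mem_filter.1 hm).2
    omega)
  have sA := shift_all N W W0
  have sB := shift_neg N W W0
  set A' := ∑ m ∈ S.filter (fun m => 0 < m), W (m - 1)
  set B' := ∑ m ∈ S.filter (fun m => m < 0), W (m - 1)
  have k1 : 1 ≤ kap := by
    have h1 : del ≤ 1 := by nlinarith [sq_nonneg k]
    have h2 : 1 ≤ del⁻¹ := (one_le_inv₀ hd).2 h1
    linarith
  have i1 : -(kap - 1) * A' ≤ (1 - del⁻¹) * A := by
    have h1 : (1 - kap) * A ≤ (1 - del⁻¹) * A := mul_le_mul_of_nonneg_right (by linarith) A0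
    have h2 : (kap - 1) * A ≤ (kap - 1) * A' := mul_le_mul_of_nonneg_left AA (by linarith)
    linarith
  have i2 : (1 + del⁻¹) * B ≤ (1 + kap) * B' := by
    have h0 : 0 ≤ del⁻¹ := inv_nonneg.2 hd.le
    exact mul_le_mul (by linarith) BB B0 (by linarith)
  set M := N + 4 with hMdef
  set SS := ∑ n ∈ Finset.Icc (-(M : ℤ)) M, ‖wm P.eta s n‖ ^ 2 with hSS
  set XX := ∑ n ∈ Finset.Icc (-(M : ℤ)) M, ‖wm P.eta (xs s) n‖ ^ 2 with hXX
  set YY := ∑ n ∈ Finset.Icc (-(M : ℤ)) M, ‖wm P.eta (ys s) n‖ ^ 2 with hYY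
  set PP := ∑ n ∈ Finset.Icc (-(M : ℤ)) M, ‖wm P.eta p n‖ ^ 2 with hPP
  set RR := ∑ n ∈ Finset.Icc (-(M : ℤ)) M, ‖wm P.eta r n‖ ^ 2 with hRR
  have eW : ∑ n ∈ Finset.Icc (-(M : ℤ)) M, W n = 2 / ((K : ℝ) - 1) * SS
      + 1 / ((L : ℝ) - 1) * (21 / 4 * PP + 75 / 8 * RR) := by
    rw [hSS, hPP, hRR, Finset.mul_sum, Finset.mul_sum, Finset.mul_sum, ← Finset.sum_add_distrib, Finset.mul_sum,
      ← Finset.sum_add_distrib]
  have eN : ∑ n ∈ Finset.Icc (-(M : ℤ)) M, (if n < 0 then W n else 0) =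
      2 / ((K : ℝ) - 1) * (∑ n ∈ Finset.Icc (-(M : ℤ)) M, (if n < 0 then ‖wm P.eta s n‖ ^ 2 else 0))
      + 1 / ((L : ℝ) - 1) * (21 / 4 * (∑ n ∈ Finset.Icc (-(M : ℤ)) M, (if n < 0 then ‖wm P.eta p n‖ ^ 2 else 0))
        + 75 / 8 * (∑ n ∈ Finset.Icc (-(M : ℤ)) M, (if n < 0 then ‖wm P.eta r n‖ ^ 2 else 0))) := by
    rw [Finset.mul_sum, Finset.mul_sum, Finset.mul_sum, ← Finset.sum_add_distrib, Finset.mul_sum,
      ← Finset.sum_add_distrib]
    refine Finset.sum_congr rfl fun n _ => ?_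
    split_ifs
    · rfl
    · ring
  have n1 := neg_s P.eta hth s M
  have n2 := half_neg M (fun n => ‖wm P.eta p n‖ ^ 2) (fun n => sq_nonneg _)
    (fun n => by rw [wm_herm hp, Complex.norm_conj])
  have n3 := half_neg M (fun n => ‖wm P.eta r n‖ ^ 2) (fun n => sq_nonneg _)
    (fun n => by rw [wm_herm hr, Complex.norm_conj])
  beta_reduce at n2 n3
  have m1 := par_wm P ss (M := M) (by omega)
  have m2 := par_wm P (xs_sup ss) (M := M) (by omega)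
  have m3 := par_wm P (ys_sup ss) (M := M) (by omega)
  have m4 := par_wm P sp (M := M) (by omega)
  have m5 := par_wm P sr (M := M) (by omega)
  have f2 : (fun x => P.w x ^ 2 * ‖tpM N (xs s) x‖ ^ 2) = fun x => P.w x ^ 2 * (tpM N s x).re ^ 2 := by
    funext x
    rw [tp_xs, Complex.norm_real, Real.norm_eq_abs, sq_abs]
  have f3 : (fun x => P.w x ^ 2 * ‖tpM N (ys s) x‖ ^ 2) = fun x => P.w x ^ 2 * (tpM N s x).im ^ 2 := by
    funext x
    rw [tp_ys, Complex.norm_real, Real.norm_eq_abs, sq_abs]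
  have f4 : (fun x => P.w x ^ 2 * ‖tpM N p x‖ ^ 2) = fun x => P.w x ^ 2 * (tpM N p x).re ^ 2 := by
    funext x
    nth_rewrite 1 [tpM_real hp x]
    rw [Complex.norm_real, Real.norm_eq_abs, sq_abs]
  have f5 : (fun x => P.w x ^ 2 * ‖tpM N r x‖ ^ 2) = fun x => P.w x ^ 2 * (tpM N r x).re ^ 2 := by
    funext x
    nth_rewrite 1 [tpM_real hr x]
    rw [Complex.norm_real, Real.norm_eq_abs, sq_abs]
  rw [f2] at m2
  rw [f3] at m3
  rw [f4] at m4
  rw [f5] at m5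
  rw [← m1, ← m2, ← m3, ← m4, ← m5, ← hSS, ← hXX, ← hYY, ← hPP, ← hRR]
  rw [eW] at sA
  rw [eN] at sB
  have c1 : 0 ≤ 1 / ((K : ℝ) - 1) := by positivity
  have c2 : 0 ≤ 1 / ((L : ℝ) - 1) := by positivity
  have j1 := mul_le_mul_of_nonneg_left n1 c1
  have j2 := mul_le_mul_of_nonneg_left (add_le_add (mul_le_mul_of_nonneg_left n2 (show (0 : ℝ) ≤ 21 / 4 by norm_num))
    (mul_le_mul_of_nonneg_left n3 (show (0 : ℝ) ≤ 75 / 8 by norm_num))) c2
  have j3 := mul_le_mul_of_nonneg_left sA (show 0 ≤ kap - 1 by linarith)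
  have e1 : 2 / ((K : ℝ) - 1) = 2 * (1 / ((K : ℝ) - 1)) := by ring
  have e2 : kap / ((L : ℝ) - 1) = kap * (1 / ((L : ℝ) - 1)) := by ring
  rw [e1] at sB j3
  rw [e2]
  set cK := 1 / ((K : ℝ) - 1)
  set cL := 1 / ((L : ℝ) - 1)
  have fin : (kap - 1) * A' + (1 + kap) * B' ≤ cK * (2 * (kap - 1) * SS + 2 * (1 + th) * XX + 2 * (1 + 1 / th) * YY)
      + kap * cL * (21 / 4 * PP + 75 / 8 * RR) := by
    linarith
  linarith

end Pool.Agent.Helper2.SH
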