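import Pool.Agent.Helper2.SH.PRk
import Pool.Agent.Helper42.SH.HFend

/-!
# Project RC, SHARP, cell engine: the field `pr` of the pieces of a cell
-/

set_option autoImplicit false

namespace Pool.Agent.Helper2.PRk

open Helper25.SH.Mat Helper38.SH Helper43.CL Helper95.SH Helper95.RC Helper42.SH

/-- **the field `pr`** -/
theorem LBB_PR {c : CD} {K H N b RA RB : ℕ} {d : OD} {cl νn νd : ℤ} {q2 eB : ℝ} {B : List ℕ}
    (hK : ¬ Even K) (ok : d.Ok c.P) (hc : |((2 * d.H : ℤ) : ℝ) * c.P.lam - cl| ≤ 4)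
    (hν : 0 < νn) (hνd : 0 < νd) (hnu : c.P.nu = (νn : ℝ) / νd) {t : ℕ} (ht : 0 < t) {A : List ℕ}
    (hA : ∀ i < nt K (2 * H), row b A 0 i = prD K (2 * H) d cl νn νd t i)
    (hAb : ∀ i < nt K (2 * H), |(row b A 0 i : ℝ)| ≤ RA)
    (hB : LR (nt K (2 * H)) q2 (fun v => c.P.nu / 2 * e0I c.P c.Th1 c.Th1' c.Th2 c.Th2' N (pV K (2 * H) v)
      (rV K (2 * H) v) (sV K v)) (row b B 0) eB)
    (heB : 0 ≤ eB) (hBb : ∀ i < nt K (2 * H), |(row b B 0 i : ℝ)| ≤ RB) {G : ℕ} {S : ℝ}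
    (hS : S = G * ((2 * d.H : ℤ) * q2)) :
    LBB b (nt K (2 * H)) S (fun v => Helper42.SH.gPR c K H N v) [.bl false (t * G) 1 A B]
      (2 * (t * G) * (nt K (2 * H) * (RA * eB + RB * (8 * νd / (t * νn) + 1) + (8 * νd / (t * νn) + 1) * eB))) := by
  rw [hS]
  exact LBB.one (LB_PR (G := G) hK (even_two_mul H) ok hc hν hνd hnu ht hA hAb hB heB hBb)

end Pool.Agent.Helper2.PRk
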