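import Pool.Agent.Helper25.SH.Mat
import Pool.Agent.Helper38.SH.O1T
import Pool.Agent.Helper43.CL.LBk
import Pool.Agent.Helper96.SH.Enc
import Pool.Agent.Helper95.SH.CoordI

/-!
# Project RC, SHARP, cell engine: the block `2 (H₀ + λ) e₀`

`LB_PR`: `gPR v = 2 (H₀ v + λ) e₀ v` against one block `.bl false (t 10 ^ 9) 1 A B`: the digits of `A` are the row of
`2 (H₀ + λ) / (t ν)`, the digits of `B` (digit `0`) the row of `ν / 2 · e₀` (any packed numbers, only the digit `0` is used).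
`prA`: the list `A`.
-/

set_option autoImplicit false

namespace Pool.Agent.Helper2.PRk

open Helper25.SH.Mat Helper38.SH Helper43.CL Helper95.SH Helper95.RC
open Helper96.SH (dz)
open Helper49.Sharp (Par)

/-- the rows are the digits `dz` -/
theorem row_dz (b k i : ℕ) (A : List ℕ) : row b A k i = dz b k (A.getD i 0) := by
  have h : Helper54.RC.Fast.dg b k (A.getD i 0) = A.getD i 0 / (2 ^ (b + 1)) ^ k % 2 ^ (b + 1) := by
    show (A.getD i 0 >>> ((b + 1) * k)) % 2 ^ (b + 1) = _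
    rw [Nat.shiftRight_eq_div_pow, pow_mul]
  unfold row dz Helper25.SH.Mat.dg
  rw [h]
  push_cast
  rfl

/-- a functional times a rational number, the row rounded down -/
theorem LR_ratio {n : ℕ} {q e : ℝ} {X : (ℕ → ℝ) → ℝ} {R : ℕ → ℤ} (h : LR n q X R e) {a m : ℤ} (ha : 0 ≤ a)
    (hm : 0 < m) :
    LR n q (fun v => (a : ℝ) / m * X v) (fun i => a * R i / m) ((a : ℝ) / m * e + 1) := by
  obtain ⟨ρ, h1, h2⟩ := h
  have hmr : (0 : ℝ) < m := by exact_mod_cast hm
  have har : (0 : ℝ) ≤ a := by exact_mod_cast ha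
  refine ⟨fun i => (a : ℝ) / m * ρ i, fun v hv => ?_, fun i hi => ?_⟩
  · beta_reduce
    rw [h1 v hv, Finset.mul_sum]
    exact Finset.sum_congr rfl fun i _ => by ring
  · have e1 : q * ((a : ℝ) / m * ρ i) - ((a * R i / m : ℤ) : ℝ) =
        (a : ℝ) / m * (q * ρ i - R i) + ((a * R i % m : ℤ) : ℝ) / m := by
      have h2 : (a : ℝ) * R i = m * ((a * R i / m : ℤ) : ℝ) + ((a * R i % m : ℤ) : ℝ) := by
        exact_mod_cast (Int.mul_ediv_add_emod (a * R i) m).symm
      field_simp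
      linarith
    rw [e1]
    refine (abs_add_le _ _).trans (add_le_add ?_ ?_)
    · rw [abs_mul, abs_of_nonneg (div_nonneg har hmr.le)]
      exact mul_le_mul_of_nonneg_left (h2 i hi) (div_nonneg har hmr.le)
    · have h3 := Int.emod_nonneg (a * R i) hm.ne'
      have h4 := Int.emod_lt_of_pos (a * R i) hm
      have h5 : ((a * R i % m : ℤ) : ℝ) ≤ m := by exact_mod_cast h4.le
      have h6 : (0 : ℝ) ≤ ((a * R i % m : ℤ) : ℝ) := by exact_mod_cast h3
      rw [abs_of_nonneg (div_nonneg h6 hmr.le), div_le_one hmr]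
      exact h5

/-- the block -/
noncomputable def gPR (P : Par) (Θ1 Θ1' Θ2 Θ2' : ℝ → ℝ) (N K L : ℕ) (v : ℕ → ℝ) : ℝ :=
  2 * (H0A P (pV K L v) (rV K L v) + P.lam) * e0I P Θ1 Θ1' Θ2 Θ2' N (pV K L v) (rV K L v) (sV K v)

/-- the digit `i` of the list `A` -/
def prD (K L : ℕ) (d : OD) (cl νn νd t : ℤ) (i : ℕ) : ℤ := 2 * νd * rwK K L d cl i / (t * νn)

/-- the list `A` -/
def prA (b K L : ℕ) (d : OD) (cl νn νd t : ℤ) : List ℕ :=
  (List.range (nt K L)).map fun i => (prD K L d cl νn νd t i + 2 ^ b).toNat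

/-- the check of the size of the digits -/
def prOk (K L : ℕ) (d : OD) (cl νn νd t : ℤ) (RA : ℕ) : Bool :=
  (List.range (nt K L)).all fun i => Nat.ble (prD K L d cl νn νd t i).natAbs RA

theorem prOk_iff {K L : ℕ} {d : OD} {cl νn νd t : ℤ} {RA : ℕ} (h : prOk K L d cl νn νd t RA = true) {i : ℕ}
    (hi : i < nt K L) : |prD K L d cl νn νd t i| ≤ RA := by
  unfold prOk at h
  rw [List.all_eq_true] at h
  have := Nat.le_of_ble_eq_true (h i (List.mem_range.2 hi))
  rw [Int.abs_eq_natAbs]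
  exact_mod_cast this

theorem row_prA {b K L : ℕ} {d : OD} {cl νn νd t : ℤ} {RA : ℕ} (h : prOk K L d cl νn νd t RA = true)
    (hb : RA < 2 ^ b) {i : ℕ} (hi : i < nt K L) : row b (prA b K L d cl νn νd t) 0 i = prD K L d cl νn νd t i := by
  have h1 := abs_le.1 (prOk_iff h hi)
  have h2 : (RA : ℤ) < 2 ^ b := by exact_mod_cast hb
  unfold row prA Helper25.SH.Mat.dg
  rw [List.getD_eq_getElem?_getD, List.getElem?_map, List.getElem?_range hi]
  simp only [Option.map_some, Option.getD_some, pow_zero, Nat.div_one]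
  have h3 : 0 ≤ prD K L d cl νn νd t i + 2 ^ b := by linarith [h1.1]
  have h4 : (prD K L d cl νn νd t i + 2 ^ b).toNat < 2 ^ (b + 1) := by
    zify
    rw [Int.toNat_of_nonneg h3, pow_succ]
    linarith [h1.2]
  rw [Nat.mod_eq_of_lt h4, Int.toNat_of_nonneg h3]
  push_cast
  ring

/-- **THE BLOCK `2 (H₀ + λ) e₀`** -/
theorem LB_PR {P : Par} {Θ1 Θ1' Θ2 Θ2' : ℝ → ℝ} {N K L b RA RB : ℕ} {d : OD} {cl νn νd : ℤ} {q2 eB : ℝ} {B : List ℕ}
    (hK : ¬ Even K) (hL : Even L) (ok : d.Ok P) (hc : |((2 * d.H : ℤ) : ℝ) * P.lam - cl| ≤ 4)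
    (hν : 0 < νn) (hνd : 0 < νd) (hnu : P.nu = (νn : ℝ) / νd) {t : ℕ} (ht : 0 < t) {A : List ℕ}
    (hA : ∀ i < nt K L, row b A 0 i = prD K L d cl νn νd t i)
    (hAb : ∀ i < nt K L, |(row b A 0 i : ℝ)| ≤ RA)
    (hB : LR (nt K L) q2 (fun v => P.nu / 2 * e0I P Θ1 Θ1' Θ2 Θ2' N (pV K L v) (rV K L v) (sV K v)) (row b B 0) eB)
    (heB : 0 ≤ eB) (hBb : ∀ i < nt K L, |(row b B 0 i : ℝ)| ≤ RB) {G : ℕ} :
    LB (nt K L) (G * ((2 * d.H : ℤ) * q2)) (gPR P Θ1 Θ1' Θ2 Θ2' N K L)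
      (Blk.val b (nt K L) · (.bl false (t * G) 1 A B)) 
      (2 * (t * G) * (nt K L * (RA * eB + RB * (8 * νd / (t * νn) + 1) + (8 * νd / (t * νn) + 1) * eB))) := by
  have hνr : (0 : ℝ) < νn := by exact_mod_cast hν
  have hνdr : (0 : ℝ) < νd := by exact_mod_cast hνd
  have htr : (0 : ℝ) < t := by exact_mod_cast ht
  have k1 := LR_ratio (lr_K hK hL ok hc) (a := 2 * νd) (m := t * νn) (by positivity) (by positivity)
  have k2 : LR (nt K L) ((2 * d.H : ℤ) : ℝ)
      (fun v => 2 / (t * P.nu) * (H0A P (pV K L v) (rV K L v) + P.lam)) (row b A 0) (8 * νd / (t * νn) + 1) := by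
    refine (LR.congr k1 (fun v _ => ?_) fun i hi => ?_).mono (le_of_eq ?_)
    · rw [hnu]
      push_cast
      field_simp
    · rw [hA i hi]; rfl
    · push_cast
      field_simp
      ring
  have e0 : (0 : ℝ) ≤ 8 * νd / (t * νn) + 1 := by positivity
  have h := LB.rows' (n := nt K L) (m := 1) (G := (G : ℝ)) (w := fun _ => 2 * (t : ℝ)) (W := fun _ => 2 * ((t * G : ℕ) : ℤ))
    (X := fun _ v => 2 / (t * P.nu) * (H0A P (pV K L v) (rV K L v) + P.lam))
    (Y := fun _ v => P.nu / 2 * e0I P Θ1 Θ1' Θ2 Θ2' N (pV K L v) (rV K L v) (sV K v))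
    (R := fun _ => row b A 0) (T := fun _ => row b B 0) (e1 := fun _ => 8 * νd / (t * νn) + 1) (e2 := fun _ => eB)
    (A := fun _ => RA) (B := fun _ => RB) (fun _ _ => k2) (fun _ _ => hB) (fun _ _ => hAb) (fun _ _ => hBb)
    (fun _ _ => e0) (fun _ _ => heB) (fun _ _ => Nat.cast_nonneg _) (fun _ _ => Nat.cast_nonneg _)
    (fun _ _ => by push_cast; ring)
  refine LB.mono (LB.congr h (fun v _ => ?_) fun v _ => ?_) (fun _ _ => le_rfl) (le_of_eq ?_)
  · rw [Finset.sum_range_one, hnu]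
    unfold gPR
    field_simp
  · unfold IF
    show sgr false * (2 * ((t * G : ℕ) : ℝ) * ∑ k ∈ Finset.range 1, iv (nt K L) (row b A k) v * iv (nt K L) (row b B k) v) = _
    rw [Finset.sum_range_one, Finset.sum_range_one]
    unfold sgr
    push_cast
    simp
  · rw [Finset.sum_range_one]
    have : |((2 * ((t * G : ℕ) : ℤ) : ℤ) : ℝ)| = 2 * (t * G) := by
      push_cast
      rw [abs_of_nonneg (by positivity)]
    rw [this]

end Pool.Agent.Helper2.PRk
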