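import Pool.Agent.Helper2.SH.PRf
import Pool.Agent.Helper38.SH.O1C
import Pool.Agent.Helper43.CL.Dig
import Pool.Agent.Helper70.SH.Asm

/-!
# Project RC, SHARP, cell engine: the field `pr` of the pieces, for a record, errors as natural numbers
-/

set_option autoImplicit false

namespace Pool.Agent.Helper2.PRk

open Helper25.SH.Mat Helper38.SH Helper43.CL Helper95.SH Helper95.RC Helper42.SH
open Helper49.Sharp (Par)
open Helper49.Cell
open Helper96.SH (dz)

/-! ### one digit in a wider base -/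

/-- the digit `0` of the numbers of a list in the base of `bM` -/
def cv (b bM : ℕ) : List ℕ → List ℕ
  | [] => []
  | a :: A => Nat.add (Nat.mod a (Nat.pow 2 (Nat.succ b))) (Nat.sub (Nat.pow 2 bM) (Nat.pow 2 b)) :: cv b bM A

theorem cv_length (b bM : ℕ) (A : List ℕ) : (cv b bM A).length = A.length := by
  induction A with
  | nil => rfl
  | cons a A ih => simp only [cv, List.length_cons, ih]

theorem row_cv {b bM : ℕ} (hb : b ≤ bM) (A : List ℕ) {i : ℕ} (hi : i < A.length) :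
    row bM (cv b bM A) 0 i = row b A 0 i := by
  induction A generalizing i with
  | nil => simp at hi
  | cons a A ih =>
    cases i with
    | succ i =>
      have hi' : i < A.length := by simpa using hi
      have h := ih hi'
      unfold row at h ⊢
      simp only [cv, List.getD_cons_succ]
      exact h
    | zero =>
      unfold row
      simp only [cv, List.getD_cons_zero]
      show ((Nat.add (Nat.mod a (Nat.pow 2 (Nat.succ b))) (Nat.sub (Nat.pow 2 bM) (Nat.pow 2 b)) / (2 ^ (bM + 1)) ^ 0 %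
        2 ^ (bM + 1) : ℕ) : ℤ) - ((2 ^ bM : ℕ) : ℤ) = ((a / (2 ^ (b + 1)) ^ 0 % 2 ^ (b + 1) : ℕ) : ℤ) - ((2 ^ b : ℕ) : ℤ)
      have e : Nat.add (Nat.mod a (Nat.pow 2 (Nat.succ b))) (Nat.sub (Nat.pow 2 bM) (Nat.pow 2 b)) =
          a % 2 ^ (b + 1) + (2 ^ bM - 2 ^ b) := rfl
      have h1 : 2 ^ b ≤ 2 ^ bM := Nat.pow_le_pow_right (by norm_num) hb
      have h2 : a % 2 ^ (b + 1) < 2 ^ (b + 1) := Nat.mod_lt _ (by positivity)
      have h3 : 2 ^ (b + 1) = 2 ^ b + 2 ^ b := by rw [pow_succ]; ring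
      have h4 : 2 ^ (bM + 1) = 2 ^ bM + 2 ^ bM := by rw [pow_succ]; ring
      rw [e, pow_zero, pow_zero, Nat.div_one, Nat.div_one, Nat.mod_eq_of_lt (a := a % 2 ^ (b + 1) + (2 ^ bM - 2 ^ b))
        (by omega)]
      push_cast [h1]
      ring

/-! ### the record -/

/-- `2 ^ 56 λ`, rounded down -/
def clR (R : Rec) : ℤ := 2 ^ 56 * R.lam / 100000

/-- the list `A` of a record -/
def prAR (bM K L : ℕ) (R : Rec) : List ℕ := prA bM K L (odR R 56) (clR R) R.nu 100000 16

/-- **the check of the list `A`**: digits at most `2 ^ rA` -/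
def okPR (bM rA K L : ℕ) (R : Rec) : Bool :=
  bif decide (0 < R.nu) then
    bif Nat.ble (Nat.succ rA) bM then prOk K L (odR R 56) (clR R) R.nu 100000 16 (Nat.pow 2 rA) else false
  else false

/-- the block of a record: `X` = the packed list with the `e_0` row in the digit `0`, base `b` -/
def prB (b bM K L : ℕ) (R : Rec) (X : List ℕ) : List Blk := [.bl false 16000000000 1 (prAR bM K L R) (cv b bM X)]

/-- the error `e_A` -/
def eAR (R : Rec) : ℕ := Nat.add (Int.toNat (8 * 100000 / (16 * R.nu))) 2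

/-- the error of the block, `n` coordinates -/
def prE (rA rB K L eB : ℕ) (R : Rec) : ℕ :=
  Nat.mul 32000000000 (Nat.mul (nt K L) (Nat.add (Nat.add (Nat.mul (Nat.pow 2 rA) eB) (Nat.mul (Nat.pow 2 rB) (eAR R)))
    (Nat.mul (eAR R) eB)))

theorem eAR_ge (R : Rec) (h : 0 < R.nu) :
    8 * ((100000 : ℤ) : ℝ) / (((16 : ℕ) : ℝ) * (R.nu : ℝ)) + 1 ≤ ((eAR R : ℕ) : ℝ) := by
  have hr : (0 : ℝ) < (R.nu : ℝ) := by exact_mod_cast h
  have h1 : (0 : ℤ) ≤ 8 * 100000 / (16 * R.nu) := Int.ediv_nonneg (by norm_num) (by linarith)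
  have e : ((eAR R : ℕ) : ℝ) = ((8 * 100000 / (16 * R.nu) : ℤ) : ℝ) + 2 := by
    have h2 : ((eAR R : ℕ) : ℤ) = 8 * 100000 / (16 * R.nu) + 2 := by
      show ((Int.toNat (8 * 100000 / (16 * R.nu)) + 2 : ℕ) : ℤ) = _
      rw [Nat.cast_add, Int.toNat_of_nonneg h1]
      rfl
    have h3 : (((eAR R : ℕ) : ℤ) : ℝ) = ((8 * 100000 / (16 * R.nu) + 2 : ℤ) : ℝ) := by rw [h2]
    push_cast at h3 ⊢
    exact h3
  rw [e]
  have h4 := Int.lt_ediv_add_one_mul_self (8 * 100000) (show (0 : ℤ) < 16 * R.nu by linarith)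
  have h5 : (8 * 100000 : ℝ) < (((8 * 100000 / (16 * R.nu) : ℤ) : ℝ) + 1) * (16 * R.nu) := by exact_mod_cast h4
  have h6 : 8 * ((100000 : ℤ) : ℝ) / (((16 : ℕ) : ℝ) * (R.nu : ℝ)) ≤ ((8 * 100000 / (16 * R.nu) : ℤ) : ℝ) + 1 := by
    rw [div_le_iff₀ (by positivity)]
    push_cast at h5 ⊢
    linarith
  linarith

/-- **THE FIELD `pr` OF A RECORD** -/
theorem f_PR {R : Rec} {C : Crt} (h : R.ok C = true) {K0 : ℕ} (len : Helper70.SH.Len R K0) (s : ℕ)
    {K H N b bM rA rB eB : ℕ} {X : List ℕ} (hK : ¬ Even K) (hb : b ≤ bM) (kA : okPR bM rA K (2 * H) R = true)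
    (hX : X.length = nt K (2 * H)) (kB : ∀ i < nt K (2 * H), |(row b X 0 i : ℝ)| ≤ 2 ^ rB)
    (hB : LR (nt K (2 * H)) (2 ^ 56) (fun v => (Helper70.SH.cd R h len s).P.nu / 2 *
      e0I (Helper70.SH.cd R h len s).P (Helper70.SH.cd R h len s).Th1 (Helper70.SH.cd R h len s).Th1'
      (Helper70.SH.cd R h len s).Th2 (Helper70.SH.cd R h len s).Th2' N (pV K (2 * H) v) (rV K (2 * H) v) (sV K v))
      (row b X 0) (eB : ℕ)) :
    LBB bM (nt K (2 * H)) (10 ^ 9 * 2 ^ 112) (fun v => Helper42.SH.gPR (Helper70.SH.cd R h len s) K H N v)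
      (prB b bM K (2 * H) R X) ((prE rA rB K (2 * H) eB R : ℕ) : ℝ) := by
  have k0 : 0 < R.nu := by
    unfold okPR at kA
    cases hd : decide (0 < R.nu) with
    | true => exact of_decide_eq_true hd
    | false => rw [hd] at kA; simp at kA
  have k1 : rA < bM := by
    unfold okPR at kA
    rw [decide_eq_true k0] at kA
    cases hd : Nat.ble (Nat.succ rA) bM with
    | true => exact Nat.le_of_ble_eq_true hd
    | false => rw [hd] at kA; simp at kA
  have k2 : prOk K (2 * H) (odR R 56) (clR R) R.nu 100000 16 (2 ^ rA) = true := by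
    unfold okPR at kA
    rw [decide_eq_true k0, Nat.ble_eq_true_of_le k1] at kA
    exact kA
  have hl : |((2 * (odR R 56).H : ℤ) : ℝ) * (Helper70.SH.cd R h len s).P.lam - clR R| ≤ 4 := by
    have h1 := dv (x := ((2 ^ 56 * R.lam : ℤ) : ℝ)) (e := 0) (y := 2 ^ 56 * R.lam) (w := 100000) (by simp) (by norm_num)
    have e : ((2 * (odR R 56).H : ℤ) : ℝ) * (Helper70.SH.cd R h len s).P.lam =
        ((2 ^ 56 * R.lam : ℤ) : ℝ) / ((100000 : ℤ) : ℝ) := by
      show ((2 * (2 : ℤ) ^ 55 : ℤ) : ℝ) * ((R.lam : ℝ) / 100000) = _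
      push_cast
      ring
    rw [e]
    refine h1.trans (by norm_num)
  have hA : ∀ i < nt K (2 * H), row bM (prAR bM K (2 * H) R) 0 i =
      prD K (2 * H) (odR R 56) (clR R) R.nu 100000 ((16 : ℕ) : ℤ) i := fun i hi =>
    row_prA k2 (Nat.pow_lt_pow_right (by norm_num) k1) hi
  have := LBB_PR (c := Helper70.SH.cd R h len s) (K := K) (H := H) (N := N) (b := bM) (RA := 2 ^ rA) (RB := 2 ^ rB)
    (d := odR R 56) (cl := clR R) (νn := R.nu) (νd := 100000) (q2 := 2 ^ 56) (eB := (eB : ℝ)) (B := cv b bM X)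
    hK (odR_ok R 56) hl k0 (by norm_num) (by
      show (R.nu : ℝ) / 100000 = _
      norm_num) (t := 16) (by norm_num) (A := prAR bM K (2 * H) R) hA
    (fun i hi => by
      rw [hA i hi]
      exact_mod_cast prOk_iff k2 hi)
    (LR.congr hB (fun _ _ => rfl) (fun i hi => row_cv hb X (by rw [hX]; exact hi)))
    (Nat.cast_nonneg _)
    (fun i hi => by
      rw [row_cv hb X (by rw [hX]; exact hi)]
      have := kB i hi
      exact_mod_cast this)
    (G := 1000000000) (S := 10 ^ 9 * 2 ^ 112) (by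
      show _ = ((1000000000 : ℕ) : ℝ) * (((2 * (2 : ℤ) ^ 55 : ℤ) : ℝ) * 2 ^ 56)
      norm_num)
  refine LB.mono this (fun _ _ => le_rfl) ?_
  have eA := eAR_ge R k0
  have n0 : (0 : ℝ) ≤ (nt K (2 * H) : ℝ) := Nat.cast_nonneg _
  have e0 : (0 : ℝ) ≤ (eB : ℝ) := Nat.cast_nonneg _
  have hE : ((prE rA rB K (2 * H) eB R : ℕ) : ℝ) =
      32000000000 * (nt K (2 * H) * (2 ^ rA * eB + 2 ^ rB * eAR R + eAR R * eB)) := by
    show ((32000000000 * (nt K (2 * H) * (2 ^ rA * eB + 2 ^ rB * eAR R + eAR R * eB)) : ℕ) : ℝ) = _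
    push_cast
    ring
  rw [hE]
  have h1 : (2 : ℝ) * (((16 : ℕ) : ℝ) * ((1000000000 : ℕ) : ℝ)) = 32000000000 := by norm_num
  rw [h1]
  refine mul_le_mul_of_nonneg_left (mul_le_mul_of_nonneg_left ?_ n0) (by norm_num)
  push_cast at eA ⊢
  have a1 := mul_le_mul_of_nonneg_left eA (show (0 : ℝ) ≤ 2 ^ rB by positivity)
  have a2 := mul_le_mul_of_nonneg_right eA e0
  linarith

/-- the bound of the digit `0` from the check of all digits of `X` -/
theorem dig0 {b n : ℕ} {X rs : List ℕ} (hX : X.length = n) (h : okDig b rs X = true) (hr : 0 < rs.length) :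
    ∀ i < n, |(row b X 0 i : ℝ)| ≤ 2 ^ rs.getD 0 0 := fun i hi => okDig_real h hX 0 hr i hi

/-- the bound of the digit `0` from the check of the converted list -/
theorem dig0' {b bM rB n : ℕ} {X : List ℕ} (hb : b ≤ bM) (hX : X.length = n) (h : okDig bM [rB] (cv b bM X) = true) :
    ∀ i < n, |(row b X 0 i : ℝ)| ≤ 2 ^ rB := fun i hi => by
  have h1 := okDig_real h (N := n) (by rw [cv_length, hX]) 0 (by simp) i hi
  rw [row_cv hb X (by rw [hX]; exact hi)] at h1
  simpa using h1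

end Pool.Agent.Helper2.PRk
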