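import Pool.Agent.Helper56.SH.TSV
import Pool.Agent.Helper75.SH.TSP

/-!
# Project RC, SHARP, tail symbol: pointwise densities

For a real trigonometric polynomial `kd` (`kz : FP` with `V b kz y = Q kd y`) the polynomials `K x ≈ kd (φ_j x)` and
`KV x ≈ kd (φ_j x) ee (φ_j x - x) ^ 2`, `φ_j x = inv Θ_j (x + j π / 3)`, checked by the composition `x = Θ_j y - j π / 3`
(`okK`, `okW`). `kzF`: the polynomial of the sum of the slopes (helper75's `kd0`).
-/

set_option autoImplicit false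

open Helper49.LT hiding sg

namespace Pool.Agent.Helper2.TSK

open Helper76.RC.TPoly Helper54.RC.Fast Helper76.RC.ExpF Helper76.RC.TrD
open Helper41.SH (IA inv)
open Pool.Agent.Helper56.TS

/-- the Horner value of a list -/
def ho (p : VP) (j1 : Bool) (D : List (ℤ × ℤ)) (l : List (ℤ × ℤ)) : PF :=
  hor p.b p.s p.r p.W (Nat.sub p.s p.h) (xP p j1 D) l

def okHo (p : VP) (j1 : Bool) (D : List (ℤ × ℤ)) (l : List (ℤ × ℤ)) : Bool :=
  okH p.b p.s p.r p.W (Nat.sub p.s p.h) (xP p j1 D) l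

/-- the difference `Q X ^ N V - m kd X ^ n`, `m` a polynomial -/
def dfG (b Q : ℕ) (mz : FP) (A B : PF) : FP :=
  subF b (padF b mz.N (smF b Q A.z)) (mulF b mz B.z)

def okdG (b r Q : ℕ) (mz : FP) (A B : PF) : Bool :=
  bif oks b r Q A.z then
    bif okm b r mz B.z then
      oka b r (padF b mz.N (smF b Q A.z)) (mulF b mz B.z)
    else false
  else false

/-- the common check: `Q 2 ^ s |V - m X ^ (n - N) / Q| ≤ dl` -/
def okC (p : VP) (j1 : Bool) (D : List (ℤ × ℤ)) (N n Q dl : ℕ) (mz : FP) (l : List (ℤ × ℤ)) : Bool :=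
  bif okxP p j1 D then
    bif Nat.ble n N then
      bif Nat.ble p.h p.s then
        bif Nat.ble 1 Q then
          bif okHo p j1 D l then
            bif okHo p j1 D (pw p.h n) then
              bif okdG p.b p.r Q mz (ho p j1 D l) (ho p j1 D (pw p.h n)) then
                Nat.ble (Nat.add (nrF p.b p.r (dfG p.b Q mz (ho p j1 D l) (ho p j1 D (pw p.h n))))
                  (Nat.add (Nat.mul Q (ho p j1 D l).er) (Nat.mul (nrF p.b p.r mz) (ho p j1 D (pw p.h n)).er))) dl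
              else false
            else false
          else false
        else false
      else false
    else false
  else false

theorem okC_sound (p : VP) (j1 : Bool) (D : List (ℤ × ℤ)) (N n Q dl : ℕ) (mz : FP) (l : List (ℤ × ℤ))
    (h : okC p j1 D N n Q dl mz l = true) (hw : wf p.b mz = true) (y : ℝ) :
    ‖(Q : ℂ) * (hv (XX j1 D y) l / 2 ^ p.h) - V p.b mz y * XX j1 D y ^ n‖ ≤ (dl : ℝ) / 2 ^ p.s := by
  unfold okC at h
  simp only [bb] at h
  obtain ⟨h1, h2, h3, h4, h5, h6, h7, h8⟩ := h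
  obtain ⟨hr, hs, hx⟩ := xP_sound p j1 D h1
  have h3 : p.h ≤ p.s := Nat.le_of_ble_eq_true h3
  have es : p.s = p.h + (p.s - p.h) := by omega
  obtain ⟨u1, u2⟩ := hor_sound p.b p.s p.r p.W (p.s - p.h) p.h hr hs es (xP p j1 D) (XX j1 D) (norm_XX j1 D) hx l h5
  obtain ⟨w1, w2⟩ := hor_sound p.b p.s p.r p.W (p.s - p.h) p.h hr hs es (xP p j1 D) (XX j1 D) (norm_XX j1 D) hx
    (pw p.h n) h6
  unfold okdG at h7
  simp only [bb] at h7
  obtain ⟨g1, g2, g3⟩ := h7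
  obtain ⟨a1, a2⟩ := smF_sound p.b p.r hr Q _ u1 g1
  obtain ⟨k1, k2⟩ := padF_sound p.b mz.N _ a1
  obtain ⟨n1, n2⟩ := mulF_sound p.b p.r hr _ _ hw w1 g2
  obtain ⟨s1, s2⟩ := subF_sound p.b p.r hr _ _ k1 n1 g3
  have c1 := u2 y
  have c2 := w2 y
  beta_reduce at c1 c2
  rw [hv_pw] at c2
  have p2 : (2 : ℂ) ^ p.h ≠ 0 := pow_ne_zero _ two_ne_zero
  have e7 : (2 : ℂ) ^ p.h * XX j1 D y ^ n / 2 ^ p.h = XX j1 D y ^ n := by field_simp
  rw [e7] at c2
  have c3 := norm_V_le p.b p.r hr (dfG p.b Q mz (ho p j1 D l) (ho p j1 D (pw p.h n))) y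
  have c4 := norm_V_le p.b p.r hr mz y
  have c5 : V p.b (dfG p.b Q mz (ho p j1 D l) (ho p j1 D (pw p.h n))) y = _ := s2 y
  rw [k2, a2, n2] at c5
  set A := V p.b (hor p.b p.s p.r p.W (p.s - p.h) (xP p j1 D) l).z y with hA
  set B := V p.b (hor p.b p.s p.r p.W (p.s - p.h) (xP p j1 D) (pw p.h n)).z y with hB
  set m := V p.b mz y with hm
  have c6 : ‖(Q : ℂ) * A - m * B‖ ≤ nrF p.b p.r (dfG p.b Q mz (ho p j1 D l) (ho p j1 D (pw p.h n))) := by
    have : (Q : ℂ) * A - m * B = V p.b (dfG p.b Q mz (ho p j1 D l) (ho p j1 D (pw p.h n))) y := c5.symm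
    rw [this]
    exact c3
  have h8' : nrF p.b p.r (dfG p.b Q mz (ho p j1 D l) (ho p j1 D (pw p.h n))) +
      (Q * (ho p j1 D l).er + nrF p.b p.r mz * (ho p j1 D (pw p.h n)).er) ≤ dl := Nat.le_of_ble_eq_true h8
  have h8r : ((nrF p.b p.r (dfG p.b Q mz (ho p j1 D l) (ho p j1 D (pw p.h n))) : ℕ) : ℝ) +
      ((Q : ℝ) * ((hor p.b p.s p.r p.W (p.s - p.h) (xP p j1 D) l).er : ℝ)
        + (nrF p.b p.r mz : ℝ) * ((hor p.b p.s p.r p.W (p.s - p.h) (xP p j1 D) (pw p.h n)).er : ℝ)) ≤ dl := by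
    have : ((nrF p.b p.r (dfG p.b Q mz (ho p j1 D l) (ho p j1 D (pw p.h n))) +
      (Q * (ho p j1 D l).er + nrF p.b p.r mz * (ho p j1 D (pw p.h n)).er) : ℕ) : ℝ) ≤ dl := by exact_mod_cast h8'
    push_cast at this
    exact this
  set H := hv (XX j1 D y) l / 2 ^ p.h with hH
  set Z := XX j1 D y ^ n with hZ
  have e : (2 : ℂ) ^ p.s * ((Q : ℂ) * H - m * Z) = ((Q : ℂ) * A - m * B) - (Q : ℂ) * (A - 2 ^ p.s * H)
      + m * (B - 2 ^ p.s * Z) := by ring
  have fin : ‖(2 : ℂ) ^ p.s * ((Q : ℂ) * H - m * Z)‖ ≤ dl := by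
    rw [e]
    have d1 : ‖(Q : ℂ) * (A - 2 ^ p.s * H)‖ ≤ Q * ((hor p.b p.s p.r p.W (p.s - p.h) (xP p j1 D) l).er : ℝ) := by
      rw [norm_mul, Complex.norm_natCast]
      exact mul_le_mul_of_nonneg_left c1 (Nat.cast_nonneg _)
    have d2 : ‖m * (B - 2 ^ p.s * Z)‖ ≤ (nrF p.b p.r mz : ℝ) *
        ((hor p.b p.s p.r p.W (p.s - p.h) (xP p j1 D) (pw p.h n)).er : ℝ) := by
      rw [norm_mul]
      exact mul_le_mul c4 c2 (norm_nonneg _) (Nat.cast_nonneg _)
    calc _ ≤ ‖(Q : ℂ) * A - m * B‖ + ‖(Q : ℂ) * (A - 2 ^ p.s * H)‖ + ‖m * (B - 2 ^ p.s * Z)‖ := by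
          refine (norm_add_le _ _).trans ?_
          gcongr
          exact norm_sub_le _ _
      _ ≤ dl := by linarith
  rw [norm_mul, norm_pow] at fin
  have e3 : ‖(2 : ℂ)‖ = 2 := by simp
  rw [e3] at fin
  rw [le_div_iff₀ (by positivity)]
  linarith

theorem VV_hv (h N : ℕ) (l : List (ℤ × ℤ)) (x : ℝ) : ee x ^ N * VV h N l x = hv (ee x) l / 2 ^ h := by
  have c1 : ee (-((N : ℝ) * x)) * ee x ^ N = 1 := ee_neg_mul_pow N x
  unfold VV T TP.ev
  simp only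
  rw [hv_evr]
  linear_combination ((evr (ee x) (l.map Prod.fst) + Complex.I * evr (ee x) (l.map Prod.snd)) / 2 ^ h) * c1

theorem XX_pt (j1 : Bool) (D : List (ℤ × ℤ)) (ia : IA (Th 1000 D) (Th' 1000 D)) (x : ℝ) :
    XX j1 D (inv (Th 1000 D) (x + (jn j1 : ℝ) * Real.pi / 3)) = ee x := by
  unfold XX
  rw [ia.right]
  congr 1
  ring

/-- **the density along the alignment** -/
theorem okK_sound (p : VP) (j1 : Bool) (D : List (ℤ × ℤ)) (N Q dl : ℕ) (kz : FP) (kd : ℝ → ℝ) (l : List (ℤ × ℤ))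
    (h : okC p j1 D N N Q dl kz l = true) (hw : wf p.b kz = true) (hk : ∀ y, V p.b kz y = (Q : ℂ) * (kd y : ℂ))
    (ia : IA (Th 1000 D) (Th' 1000 D)) (x : ℝ) :
    ‖VV p.h N l x - (kd (inv (Th 1000 D) (x + (jn j1 : ℝ) * Real.pi / 3)) : ℂ)‖ ≤ (dl : ℝ) / (Q * 2 ^ p.s) := by
  have hQ : 1 ≤ Q := by
    have := h
    unfold okC at this
    simp only [bb] at this
    exact Nat.le_of_ble_eq_true this.2.2.2.1
  have hQr : (0 : ℝ) < Q := by exact_mod_cast hQ
  set y := inv (Th 1000 D) (x + (jn j1 : ℝ) * Real.pi / 3) with hy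
  have hX : XX j1 D y = ee x := XX_pt j1 D ia x
  have g := okC_sound p j1 D N N Q dl kz l h hw y
  rw [hX, hk, ← VV_hv p.h N l x] at g
  have nN : ‖ee x ^ N‖ = 1 := by rw [norm_pow, norm_ee, one_pow]
  have e : (Q : ℂ) * (ee x ^ N * VV p.h N l x) - (Q : ℂ) * (kd y : ℂ) * ee x ^ N =
      ee x ^ N * ((Q : ℂ) * (VV p.h N l x - (kd y : ℂ))) := by ring
  rw [e, norm_mul, nN, one_mul, norm_mul, Complex.norm_natCast] at g
  rw [mul_comm (Q : ℝ) (2 ^ p.s), ← div_div, le_div_iff₀ hQr, mul_comm]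
  exact g

/-- the polynomial `ee (2 y) kz` -/
def k2z (b : ℕ) (kz : FP) : FP := mulF b (moF b 2 4 1 0 0 0) kz

/-- **the density along the alignment times the square of the direction** -/
theorem okW_sound (p : VP) (j1 : Bool) (D : List (ℤ × ℤ)) (N n Q dl : ℕ) (kz : FP) (kd : ℝ → ℝ)
    (l : List (ℤ × ℤ)) (hN : N = n + 2) (hb : 1 ≤ p.b) (hm : okm p.b p.r (moF p.b 2 4 1 0 0 0) kz = true)
    (h : okC p j1 D N n Q dl (k2z p.b kz) l = true) (hw : wf p.b kz = true)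
    (hk : ∀ y, V p.b kz y = (Q : ℂ) * (kd y : ℂ)) (ia : IA (Th 1000 D) (Th' 1000 D)) (x : ℝ) :
    ‖VV p.h N l x - (kd (inv (Th 1000 D) (x + (jn j1 : ℝ) * Real.pi / 3)) : ℂ)
      * ee (inv (Th 1000 D) (x + (jn j1 : ℝ) * Real.pi / 3) - x) ^ 2‖ ≤ (dl : ℝ) / (Q * 2 ^ p.s) := by
  have h0 := h
  unfold okC at h0
  simp only [bb] at h0
  have hQ : 1 ≤ Q := Nat.le_of_ble_eq_true h0.2.2.2.1
  obtain ⟨hr, -, -⟩ := xP_sound p j1 D h0.1
  have hQr : (0 : ℝ) < Q := by exact_mod_cast hQ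
  have hb2 : 1 < 2 ^ p.b := Nat.one_lt_pow (by omega) (by norm_num)
  obtain ⟨m1, m2⟩ := moF_sound p.b 2 4 1 0 0 0 (by norm_num) hb2 (by positivity) (by positivity) (by positivity)
  obtain ⟨n1, n2⟩ := mulF_sound p.b p.r hr _ _ m1 hw hm
  set y := inv (Th 1000 D) (x + (jn j1 : ℝ) * Real.pi / 3) with hy
  have hX : XX j1 D y = ee x := XX_pt j1 D ia x
  have g := okC_sound p j1 D N n Q dl (k2z p.b kz) l h n1 y
  have hV : V p.b (k2z p.b kz) y = ee (2 * y) * ((Q : ℂ) * (kd y : ℂ)) := by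
    show V p.b (mulF p.b (moF p.b 2 4 1 0 0 0) kz) y = _
    rw [n2, m2, hk]
    have : (((4 : ℕ) : ℝ) - ((2 : ℕ) : ℝ)) * y = 2 * y := by push_cast; ring
    rw [this]
    push_cast
    ring
  rw [hX, hV, ← VV_hv p.h N l x] at g
  have nN : ‖ee x ^ N‖ = 1 := by rw [norm_pow, norm_ee, one_pow]
  have eW : ee x ^ N * ee (y - x) ^ 2 = ee (2 * y) * ee x ^ n := by
    have e8 : ee x ^ N = ee x ^ n * ee x ^ 2 := by rw [← pow_add, hN]
    have e9 : ee (2 * y) = ee x ^ 2 * ee (y - x) ^ 2 := by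
      rw [← mul_pow, ← ee_add, ← ee_nat]
      congr 1
      push_cast
      ring
    rw [e8, e9]
    ring
  have e : (Q : ℂ) * (ee x ^ N * VV p.h N l x) - ee (2 * y) * ((Q : ℂ) * (kd y : ℂ)) * ee x ^ n =
      ee x ^ N * ((Q : ℂ) * (VV p.h N l x - (kd y : ℂ) * ee (y - x) ^ 2)) := by
    linear_combination (-(Q : ℂ) * (kd y : ℂ)) * (-eW)
  rw [e, norm_mul, nN, one_mul, norm_mul, Complex.norm_natCast] at g
  rw [mul_comm (Q : ℝ) (2 ^ p.s), ← div_div, le_div_iff₀ hQr, mul_comm]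
  exact g

/-! ### the sum of the slopes -/

/-- the even frequencies of the data -/
def evL : ℕ → List (ℤ × ℤ) → List (ℤ × ℤ)
  | _, [] => []
  | k, p :: l => (bif Nat.beq (Nat.mod k 2) 0 then p else (0, 0)) :: evL (Nat.succ k) l

theorem evL_length (k : ℕ) (l : List (ℤ × ℤ)) : (evL k l).length = l.length := by
  induction l generalizing k with
  | nil => rfl
  | cons p l ih => simp [evL, ih]

theorem DA_evL (k : ℕ) (l : List (ℤ × ℤ)) (x : ℝ) : DA k l x + DA k l (x + Real.pi) = 2 * DA k (evL k l) x := by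
  induction l generalizing k with
  | nil => simp [DA, evL]
  | cons p l ih =>
    have ih := ih (k + 1)
    have e : (k : ℝ) * (x + Real.pi) = k * x + k * Real.pi := by ring
    simp only [DA, evL, e]
    rcases Nat.even_or_odd k with hk | hk
    · have h2 : Nat.beq (Nat.mod k 2) 0 = true := by
        show Nat.beq (k % 2) 0 = true
        rw [Nat.even_iff.1 hk]
        rfl
      rw [h2, Real.cos_add, Real.sin_add]
      obtain ⟨j, rfl⟩ := hk
      have c : Real.cos (((j + j : ℕ) : ℝ) * Real.pi) = 1 := by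
        have : (((j + j : ℕ) : ℝ) * Real.pi) = (j : ℝ) * (2 * Real.pi) := by push_cast; ring
        rw [this]
        exact Real.cos_nat_mul_two_pi j
      have s : Real.sin (((j + j : ℕ) : ℝ) * Real.pi) = 0 := Real.sin_nat_mul_pi _
      rw [c, s]
      show _ = 2 * ((p.1 : ℝ) * _ + (p.2 : ℝ) * _ + _)
      linarith
    · have h2 : Nat.beq (Nat.mod k 2) 0 = false := by
        show Nat.beq (k % 2) 0 = false
        rw [Nat.odd_iff.1 hk]
        rfl
      rw [h2, Real.cos_add, Real.sin_add]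
      obtain ⟨j, rfl⟩ := hk
      have c : Real.cos (((2 * j + 1 : ℕ) : ℝ) * Real.pi) = -1 := by
        have : (((2 * j + 1 : ℕ) : ℝ) * Real.pi) = Real.pi + (j : ℝ) * (2 * Real.pi) := by push_cast; ring
        rw [this, Real.cos_add_nat_mul_two_pi, Real.cos_pi]
      have s : Real.sin (((2 * j + 1 : ℕ) : ℝ) * Real.pi) = 0 := Real.sin_nat_mul_pi _
      rw [c, s]
      show _ = 2 * (((0 : ℤ) : ℝ) * _ + ((0 : ℤ) : ℝ) * _ + _)
      push_cast
      linarith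

/-- the polynomial `1000 kd0` -/
def kzF (b : ℕ) (D1 D2 : List (ℤ × ℤ)) : FP :=
  subF b (subF b (cst b D1.length 4000) (zD b (evL 1 (der 1 D1)))) (zD b (evL 1 (der 1 D2)))

def okkz (b r : ℕ) (D1 D2 : List (ℤ × ℤ)) : Bool :=
  bif Nat.ble r (Nat.succ b) then
    bif Nat.ble 4001 (Nat.pow 2 b) then
      bif okD b (evL 1 (der 1 D1)) then
        bif okD b (evL 1 (der 1 D2)) then
          bif oka b r (cst b D1.length 4000) (zD b (evL 1 (der 1 D1))) then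
            oka b r (subF b (cst b D1.length 4000) (zD b (evL 1 (der 1 D1)))) (zD b (evL 1 (der 1 D2)))
          else false
        else false
      else false
    else false
  else false

theorem kzF_sound (b r : ℕ) (D1 D2 : List (ℤ × ℤ)) (h : okkz b r D1 D2 = true) : wf b (kzF b D1 D2) = true ∧
    ∀ y, V b (kzF b D1 D2) y = ((1000 : ℕ) : ℂ) * ((Th' 1000 D1 y + Th' 1000 D1 (y + Real.pi) + Th' 1000 D2 y
      + Th' 1000 D2 (y + Real.pi) : ℝ) : ℂ) := by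
  unfold okkz at h
  simp only [bb] at h
  obtain ⟨h1, h2, h3, h4, h5, h6⟩ := h
  have hr : r ≤ b + 1 := Nat.le_of_ble_eq_true h1
  have h2 : 4000 < 2 ^ b := Nat.le_of_ble_eq_true h2
  obtain ⟨z1, z2⟩ := zD_sound b 1000 (by norm_num) _ h3
  obtain ⟨y1, y2⟩ := zD_sound b 1000 (by norm_num) _ h4
  obtain ⟨c1, c2⟩ := cst_sound b D1.length 4000 h2
  obtain ⟨s1, s2⟩ := subF_sound b r hr _ _ c1 z1 h5
  obtain ⟨t1, t2⟩ := subF_sound b r hr _ _ s1 y1 h6
  refine ⟨t1, fun y => ?_⟩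
  show V b (subF b _ _) y = _
  rw [t2, s2, c2, z2, y2]
  have a : ∀ l : List (ℤ × ℤ), Dt 1000 l y + Dt 1000 l (y + Real.pi) = 2 * Dt 1000 (evL 1 l) y := by
    intro l
    have := DA_evL 1 l y
    unfold Dt
    rw [← add_div, this]
    ring
  have a1 := a (der 1 D1)
  have a2 := a (der 1 D2)
  unfold Th'
  have e : (1 - Dt 1000 (der 1 D1) y + (1 - Dt 1000 (der 1 D1) (y + Real.pi)) + (1 - Dt 1000 (der 1 D2) y)
      + (1 - Dt 1000 (der 1 D2) (y + Real.pi)) : ℝ) = 4 - 2 * Dt 1000 (evL 1 (der 1 D1)) y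
        - 2 * Dt 1000 (evL 1 (der 1 D2)) y := by linarith
  rw [e]
  push_cast
  ring

end Pool.Agent.Helper2.TSK
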